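import Pool.Agent.Lib.MP_4960b8_pr.EX.Main

/-!
The case `n = 0`, `x = x_c`: the first horizontal moment `M T` of the boundary two-point function
`G T β` of the strip with `T` rows satisfies `M T = (c + o(1)) T ^ (3/4)` with the explicit constant
`c = 2 ^ (5/4) (√2 - 1) Γ(3/4) / (3 ^ (3/8) √π)`.
-/

namespace Pool.Agent.Results.MP_4960b8_pr.ArcMoment

open Pool.Agent.Lib.MP_4960b8_pr.SAW Filter Topology

theorem result : ∃ (G : ℕ → ℕ → ℝ) (M : ℕ → ℝ),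
    (∀ T β : ℕ, 1 ≤ β → HasSum (fun γ : saws {v | 0 ≤ v.k ∧ v.k < T} ⟨1, 1, 0⟩ ⟨1 + β, 1 - β, 0⟩ =>
      xc ^ γ.1.length) (G T β)) ∧
    (∀ T : ℕ, HasSum (fun β : ℕ => (β : ℝ) * G T β) (M T)) ∧
    Tendsto (fun T : ℕ => M T / (T : ℝ) ^ (3 / 4 : ℝ)) atTop
      (𝓝 ((2 : ℝ) ^ (5 / 4 : ℝ) * (√2 - 1) * Real.Gamma (3 / 4) /
        ((3 : ℝ) ^ (3 / 8 : ℝ) * √Real.pi))) :=
  Pool.Agent.Lib.MP_4960b8_pr.EX.moment_val

end Pool.Agent.Results.MP_4960b8_pr.ArcMoment
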