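import Pool.Agent.Lib.MP_4960b8_pr.UN.Main

/-!
The case `n = 0`, `x = x_c`: the critical weights of the self-avoiding bridges of the strip with
`N` rows of the hexagonal lattice, multiplied by `N ^ (1/4)` and pushed forward to the rescaled set
of cut levels, converge weakly (Hausdorff metric) to `c` times an explicit probability law.
-/

namespace Pool.Agent.Results.MP_4960b8_pr.CutSetLimit

open Pool.Agent.Lib.MP_4960b8_pr.SAW Pool.Agent.Lib.MP_4960b8_pr.QK
  Pool.Agent.Lib.MP_4960b8_pr.RN Pool.Agent.Lib.MP_4960b8_pr.UN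
  TopologicalSpace MeasureTheory Filter Topology

theorem result [MeasurableSpace (NonemptyCompacts unitInterval)]
    [BorelSpace (NonemptyCompacts unitInterval)] :
    (∀ N : ℕ, Summable fun γ : bridges N => xc ^ γ.1.length) ∧
    ∃ c : ℝ, 0 < c ∧ ∀ lam : ℝ, 0 ≤ lam → lam ≤ 1 →
      ∃ ν : Measure (NonemptyCompacts unitInterval),
        (∀ μ : Measure (NonemptyCompacts unitInterval), (IsProbabilityMeasure μ ∧
          (∀ᵐ K ∂μ, (0 : unitInterval) ∈ K ∧ (1 : unitInterval) ∈ K) ∧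
          ∀ l : List (ℝ × ℝ), Ord 0 l 1 →
            μ.real {K | ∀ I ∈ l, ∃ x ∈ K, I.1 ≤ (x : ℝ) ∧ (x : ℝ) ≤ I.2} = hit lam l 0) ↔ μ = ν) ∧
        ∀ (T : ℕ → ℝ) (N : ℕ → ℕ), Tendsto T atTop atTop → (∀ n, T n ≤ N n) →
          Tendsto (fun n => T n / N n) atTop (𝓝 lam) →
          ∀ f : ContinuousMap (NonemptyCompacts unitInterval) ℝ,
            Tendsto (fun n => (N n : ℝ) ^ (1 / 4 : ℝ) *
            ∑' γ : bridges (N n), xc ^ γ.1.length * f (cuts (T n) γ.1)) atTop
              (𝓝 (c * ∫ K, f K ∂ν)) :=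
  ⟨bridges_summable, main⟩

end Pool.Agent.Results.MP_4960b8_pr.CutSetLimit
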