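import Pool.Agent.Lib.MP_4960b8_pr.Main

namespace Pool.Agent.Results.MP_4960b8_pr.LongLoops

open Pool.Agent.Lib.MP_4960b8_pr

/-- Loop O(n) model, `0 < n ≤ 1`, at Nienhuis' point: arbitrarily long loops that wind around the
torus or surround the base vertex appear with uniformly positive probability in complements of
loop configurations of arbitrarily large hexagonal tori. -/
theorem result (n : ℝ) (h0 : 0 < n) (h1 : n ≤ 1) :
    ∃ p > 0, ∀ r L₀ : ℕ, ∃ (L : ℕ) (_ : NeZero L), L₀ ≤ L ∧
      ∃ S₀ : Finset (Finset (Sym2 (V (ZMod L)))), Config Finset.univ S₀ ∧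
        p ≤ prob L n (xc n) (freeOf L S₀)
          (fun S => ∃ c ∈ S, r ≤ c.card ∧ (NonContr L c ∨ Surrounds L c)) :=
  long_loops h0 h1

end Pool.Agent.Results.MP_4960b8_pr.LongLoops
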