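import Pool.Agent.Lib.MP_4960b8_pr.PT.Main

/-!
The case `n = 0`, `x = x_c`, first order in `n`: the total weight `W_T` of the self-avoiding
polygons of the hexagonal lattice, up to translation, whose rows differ by at most `T` satisfies
`W_T = 1 + 3 √2 / 2 - 16 √3 / 9 - (5 / (36 √3) + o(1)) / T ^ 2`.
-/

namespace Pool.Agent.Results.MP_4960b8_pr.PolygonTail

open Pool.Agent.Lib.MP_4960b8_pr.SAW Pool.Agent.Lib.MP_4960b8_pr.PT Filter Topology

theorem result : Summable (fun γ : polys => xc ^ γ.1.length) ∧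
    Tendsto (fun T : ℕ => (T : ℝ) ^ 2 *
      (1 + 3 * √2 / 2 - 16 * √3 / 9 - ∑' γ : low T, xc ^ γ.1.length)) atTop
      (𝓝 (5 / (36 * √3))) := poly_low

end Pool.Agent.Results.MP_4960b8_pr.PolygonTail
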